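import Pool.Agent.H40.CK2

set_option autoImplicit false

namespace Pool.Agent.Results.MP_1f55c7_lc.FiniteAxiomatisability

open Pool.Agent.H40.CK

/-- The `◇`-free fragment of `L₁` is finitely axiomatisable, that of `L₂` is not. -/
theorem result : BoxFragmentFinAx ax1 ∧ ¬ BoxFragmentFinAx ax2 :=
  ⟨finAx1, not_finAx2⟩

end Pool.Agent.Results.MP_1f55c7_lc.FiniteAxiomatisability
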