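import Pool.Agent.H40.CK

set_option autoImplicit false

namespace Pool.Agent.Results.MP_1f55c7_lc.FragmentsDiffer

open Pool.Agent.H40.CK

/-- Some `◇`-free formula is a theorem of `L₂` but not of `L₁`. -/
theorem result : ∃ φ : Fm, φ.DiaFree ∧ Thm ax2 φ ∧ ¬ Thm ax1 φ :=
  ⟨xi, xi_free, xi_L2, xi_not_L1⟩

end Pool.Agent.Results.MP_1f55c7_lc.FragmentsDiffer
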